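import Pool.Agent.W_bb4b37_h53.FinalC

/-!
# The dual `K`-geometric Koebe problem: uniqueness fails for every `K < 0` close to `0`

All definitions of the statement are in `Pool/Agent/W_bb4b37_h53/Stmt.lean`.
-/

set_option autoImplicit false

open Set
open scoped ContDiff

namespace Pool.Agent.Results.MP_bb4b37_gt.NonUniqueness

open Pool.Agent.KKS

/-- There is `K₀ ∈ (-1, 0)` such that for every `K ∈ (K₀, 0)` there are a connected open plane set
`S` with a complete Riemannian metric `g` of constant curvature `K / (K + 1)`, all of whose closed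
geodesics are longer than `2π`, and two circle domains `Γ₁`, `Γ₂`, not related by any Möbius or
anti-Möbius map, such that `(S, g)` is isometric to both `S_K(Γ₁)` and `S_K(Γ₂)` with their third
fundamental forms. -/
theorem result : ∃ K₀ : ℝ, -1 < K₀ ∧ K₀ < 0 ∧ ∀ K : ℝ, K₀ < K → K < 0 →
    ∃ (S : Set ℂ) (g : Metric2), IsOpen S ∧ IsConnected S ∧ g.IsRiemannian S ∧ g.IsComplete S ∧
      (∀ z ∈ S, gaussK g z = K / (K + 1)) ∧
      (∀ γ T, g.IsClosedGeodesic S γ T → 2 * Real.pi < ∫ t in (0 : ℝ)..T, g.speed γ t) ∧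
      ∃ Γ₁ Γ₂ : Set (OnePoint ℂ), IsCircleDomain Γ₁ ∧ IsCircleDomain Γ₂ ∧
        ¬ MobiusEquiv Γ₁ Γ₂ ∧ Realizes K S g Γ₁ ∧ Realizes K S g Γ₂ :=
  Pool.Agent.KK.main

end Pool.Agent.Results.MP_bb4b37_gt.NonUniqueness
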